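import Pool.Agent.Helper9_PSet.Union

/-!
# Families of `ℵ₂` nowhere dense sets do not cover a clopen subset of `ω*` (under PFA)
-/

set_option autoImplicit false

namespace Pool.Agent.Helper46_PSO

open Set Cardinal Pool.Agent.Helper9_PSet

/-- A well-ordered index type of size `ℵ₂` with initial segments of size at most `ℵ₁`: towers
through `ℵ₂` nowhere dense sets. -/
theorem tower (h : PFA) {ι : Type} [LinearOrder ι] [WellFoundedLT ι]
    (hι : ∀ i : ι, #(Iio i) ≤ aleph 1) (e : ι → Set OmegaStar) (he : ∀ i, IsNowhereDense (e i))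
    (A : Set ℕ) (hA : A.Infinite) :
    ∃ c : ι → Set ℕ, ∀ i, (c i).Infinite ∧ c i ⊆ A ∧ Disjoint (st (c i)) (e i) ∧
      ∀ j, j < i → (c i \ c j).Finite := by
  classical
  let Q : (i : ι) → ((j : ι) → j < i → Set ℕ) → Set ℕ → Prop := fun i prev B =>
    B.Infinite ∧ B ⊆ A ∧ Disjoint (st B) (e i) ∧ ∀ j (hj : j < i), (B \ prev j hj).Finite
  let c : ι → Set ℕ := (wellFounded_lt (α := ι)).fix fun i prev =>
    if hB : ∃ B, Q i prev B then hB.choose else ∅
  have hc : ∀ i, c i = if hB : ∃ B, Q i (fun j _ => c j) B then hB.choose else ∅ := fun i =>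
    (wellFounded_lt (α := ι)).fix_eq _ i
  refine ⟨c, fun i => ?_⟩
  change Q i (fun j _ => c j) (c i)
  induction i using (wellFounded_lt (α := ι)).induction with
  | _ i ih =>
    obtain ⟨p, hpA, hp, hpc⟩ := pseudo_chain h (ι := Iio i) (hι i) A hA (fun j => c j.1) univ
      (fun j _ => ⟨(ih j.1 j.2).1, (ih j.1 j.2).2.1⟩)
      (fun j _ k _ hkj => (ih j.1 j.2).2.2.2 k.1 hkj)
    have h1 : ¬ st p ⊆ closure (e i) := by
      intro hcon
      obtain ⟨x, hx⟩ := exists_mem hp
      have h2 : x ∈ interior (closure (e i)) := interior_maximal hcon (isOpen_st p) hx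
      have h3 : interior (closure (e i)) = ∅ := he i
      rw [h3] at h2
      exact h2
    obtain ⟨x, hxp, hxF⟩ := not_subset.mp h1
    obtain ⟨B, hB, hBF⟩ := exists_st isClosed_closure.isOpen_compl hxF
    have hex : ∃ B, Q i (fun j _ => c j) B := by
      refine ⟨p ∩ B, infinite_of_mem x (Filter.inter_mem hxp hB), fun n hn => hpA hn.1, ?_, ?_⟩
      · exact Set.disjoint_left.mpr fun y hy hye =>
          hBF (Filter.mem_of_superset hy inter_subset_right) (subset_closure hye)
      · exact fun j hj => (hpc ⟨j, hj⟩ (mem_univ _)).subset fun n hn => ⟨hn.1.1, hn.2⟩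
    rw [hc i, dif_pos hex]
    exact hex.choose_spec

/-- a tower has a common point -/
theorem common {ι : Type} [LinearOrder ι] [Nonempty ι] (c : ι → Set ℕ)
    (h1 : ∀ i, (c i).Infinite) (h2 : ∀ i j, j < i → (c i \ c j).Finite) :
    ∃ x : OmegaStar, ∀ i, x ∈ st (c i) := by
  have h3 : (⋂ i, st (c i)).Nonempty := by
    refine IsCompact.nonempty_iInter_of_directed_nonempty_isCompact_isClosed _ ?_ ?_ ?_ ?_
    · intro i j
      rcases lt_trichotomy i j with hij | rfl | hij
      · exact ⟨j, st_subset.mpr (h2 j i hij), Subset.rfl⟩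
      · exact ⟨i, Subset.rfl, Subset.rfl⟩
      · exact ⟨i, Subset.rfl, st_subset.mpr (h2 i j hij)⟩
    · intro i
      obtain ⟨x, hx⟩ := exists_mem (h1 i)
      exact ⟨x, hx⟩
    · exact fun i => (isClosed_st _).isCompact
    · exact fun i => isClosed_st _
  obtain ⟨x, hx⟩ := h3
  exact ⟨x, fun i => mem_iInter.mp hx i⟩

/-- Under PFA the union of `ℵ₂` nowhere dense sets contains no nonempty clopen set. -/
theorem novak (h : PFA) (S : Set (Set OmegaStar)) (hS : #S ≤ aleph 2)
    (hn : ∀ F ∈ S, IsNowhereDense F) (A : Set ℕ) (hA : A.Infinite) :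
    ∃ x ∈ st A, ∀ F ∈ S, x ∉ F := by
  classical
  let ι : Type := (aleph 2).ord.ToType
  have hcard : #ι = aleph 2 := mk_ord_toType _
  have hι : ∀ i : ι, #(Iio i) ≤ aleph 1 := by
    intro i
    have h1 : #(Iio i) < #ι := mk_Iio_lt i (by rw [hcard]; simp [ι])
    rw [hcard] at h1
    have h2 : aleph 2 = Order.succ (aleph 1) := by
      rw [succ_aleph]
      norm_num
    exact Order.lt_succ_iff.mp (h1.trans_eq h2)
  have hne : Nonempty ι := by
    rw [← mk_ne_zero_iff, hcard]
    exact (aleph_pos 2).ne'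
  have hemb : Nonempty (S ↪ ι) := by
    rw [← Cardinal.le_def, hcard]
    exact hS
  obtain ⟨g⟩ := hemb
  let e : ι → Set OmegaStar := fun i => if hi : ∃ F : S, g F = i then hi.choose.1 else ∅
  have he : ∀ i, IsNowhereDense (e i) := by
    intro i
    by_cases hi : ∃ F : S, g F = i
    · have : e i = hi.choose.1 := dif_pos hi
      rw [this]
      exact hn _ hi.choose.2
    · have : e i = ∅ := dif_neg hi
      rw [this]
      exact isNowhereDense_empty
  have heF : ∀ F : S, e (g F) = F.1 := by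
    intro F
    have hi : ∃ F' : S, g F' = g F := ⟨F, rfl⟩
    have h1 : e (g F) = hi.choose.1 := dif_pos hi
    rw [h1, g.injective hi.choose_spec]
  obtain ⟨c, hc⟩ := tower h hι e he A hA
  obtain ⟨x, hx⟩ := common c (fun i => (hc i).1) (fun i j hj => (hc i).2.2.2 j hj)
  refine ⟨x, ?_, fun F hF hxF => ?_⟩
  · obtain ⟨i⟩ := hne
    exact Filter.mem_of_superset (hx i) (hc i).2.1
  · refine Set.disjoint_left.mp (hc (g ⟨F, hF⟩)).2.2.1 (hx _) ?_
    rw [heF]
    exact hxF

end Pool.Agent.Helper46_PSO
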