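import Pool.Agent.Helper46_PSO.Nov

/-!
# The order of a cover by nowhere dense P-sets
-/

set_option autoImplicit false

namespace Pool.Agent.Helper46_PSO

open Set Cardinal Filter Topology Pool.Agent.Helper9_PSet

/-- recursive choice of a sequence -/
theorem recur {α : Type} (Y : Set α) (R : Finset α → α → Prop)
    (h : ∀ s : Finset α, (↑s : Set α) ⊆ Y → ∃ p ∈ Y, p ∉ s ∧ R s p) :
    ∃ (d : ℕ → α) (s : ℕ → Finset α), (∀ n, d n ∈ Y ∧ d n ∉ s n ∧ R (s n) (d n)) ∧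
      (∀ m n, m < n → d m ∈ s n) ∧ ∀ m n, m ≤ n → s m ⊆ s n := by
  classical
  obtain ⟨a, ha, -, -⟩ := h ∅ (by simp)
  let p : Finset α → α := fun s => if hs : (↑s : Set α) ⊆ Y then (h s hs).choose else a
  let s : ℕ → Finset α := fun n => Nat.rec ∅ (fun _ s => insert (p s) s) n
  have hs1 : ∀ n, s (n + 1) = insert (p (s n)) (s n) := fun n => rfl
  have hp : ∀ s : Finset α, (↑s : Set α) ⊆ Y → p s ∈ Y ∧ p s ∉ s ∧ R s (p s) := by
    intro t ht
    have e : p t = (h t ht).choose := dif_pos ht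
    rw [e]
    exact (h t ht).choose_spec
  have hsY : ∀ n, ∀ y ∈ s n, y ∈ Y := by
    intro n
    induction n with
    | zero => exact fun x hx => absurd hx (Finset.notMem_empty x)
    | succ n ih =>
      intro y hy
      rw [hs1] at hy
      rcases Finset.mem_insert.mp hy with rfl | hy
      · exact (hp _ ih).1
      · exact ih y hy
  have hmono : ∀ m n, m ≤ n → s m ⊆ s n := by
    intro m n hmn
    induction n, hmn using Nat.le_induction with
    | base => exact Finset.Subset.refl _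
    | succ n _ ih =>
      rw [hs1]
      exact ih.trans (Finset.subset_insert _ _)
  refine ⟨fun n => p (s n), s, fun n => hp _ (hsY n), fun m n hmn => ?_, hmono⟩
  refine hmono (m + 1) n hmn ?_
  rw [hs1]
  exact Finset.mem_insert_self _ _

theorem inj_of {α : Type} (d : ℕ → α) (s : ℕ → Finset α) (h1 : ∀ n, d n ∉ s n)
    (h2 : ∀ m n, m < n → d m ∈ s n) : Function.Injective d := by
  intro m n hmn
  rcases lt_trichotomy m n with h | h | h
  · exact absurd (hmn ▸ h2 m n h) (h1 n)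
  · exact h
  · exact absurd (hmn ▸ h2 n m h) (h1 m)

/-- a P-set which contains a cluster point of a sequence contains infinitely many terms -/
theorem freq {F : Set OmegaStar} (hF : IsPSet F) (d : ℕ → OmegaStar) (x : OmegaStar)
    (hx : MapClusterPt x atTop d) (hxF : x ∈ F) : ∃ᶠ n in atTop, d n ∈ F := by
  classical
  let G : ℕ → Set OmegaStar := fun n => if d n ∈ F then Set.univ else {d n}ᶜ
  have hG : ∀ n, IsOpen (G n) := by
    intro n
    by_cases hn : d n ∈ F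
    · have e : G n = Set.univ := if_pos hn
      rw [e]
      exact isOpen_univ
    · have e : G n = {d n}ᶜ := if_neg hn
      rw [e]
      exact isOpen_compl_singleton
  have hFG : ∀ n, F ⊆ G n := by
    intro n
    by_cases hn : d n ∈ F
    · have e : G n = Set.univ := if_pos hn
      rw [e]
      exact subset_univ _
    · have e : G n = {d n}ᶜ := if_neg hn
      rw [e]
      intro y hy hyn
      rw [mem_singleton_iff] at hyn
      exact hn (hyn ▸ hy)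
  have h1 : x ∈ interior (⋂ n, G n) := hF.int G hG hFG hxF
  have h2 : ∃ᶠ n in atTop, d n ∈ interior (⋂ n, G n) :=
    hx.frequently (isOpen_interior.mem_nhds h1)
  refine h2.mono fun n hn => ?_
  by_contra hdn
  have h3 : d n ∈ G n := mem_iInter.mp (interior_subset hn) n
  have e : G n = {d n}ᶜ := if_neg hdn
  rw [e] at h3
  exact h3 rfl

/-- The core: if the members of a family of P-sets which covers the closed set `W` and a subset `Y` of `W`
are such that no `κ` members contain `Y`, then a member contains an infinite subset of `Y` whose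
finite subsets lie in more than `κ` members. -/
theorem core (𝓕 : Set (Set OmegaStar)) (hP : ∀ F ∈ 𝓕, IsPSet F) (W : Set OmegaStar)
    (hW : IsClosed W) (hcov : W ⊆ ⋃₀ 𝓕) (Y : Set OmegaStar) (hYA : Y ⊆ W) (κ : Cardinal.{0})
    (hκ : ℵ₀ ≤ κ)
    (hY : ∀ S : Set (Set OmegaStar), S ⊆ 𝓕 → #S ≤ κ → ∃ y ∈ Y, ∀ F ∈ S, y ∉ F) :
    ∃ F ∈ 𝓕, ∃ E : Set OmegaStar, E ⊆ F ∩ Y ∧ E.Infinite ∧ ∀ e : Finset OmegaStar,
      (↑e : Set OmegaStar) ⊆ E → κ < #(↥{G : Set OmegaStar | G ∈ 𝓕 ∧ (↑e : Set OmegaStar) ⊆ G}) := by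
  classical
  have hch : ∀ y : OmegaStar, ∃ F : Set OmegaStar, y ∈ W → F ∈ 𝓕 ∧ y ∈ F := by
    intro y
    by_cases hy : y ∈ W
    · obtain ⟨F, hF, hyF⟩ := hcov hy
      exact ⟨F, fun _ => ⟨hF, hyF⟩⟩
    · exact ⟨∅, fun h => absurd h hy⟩
  choose φ hφ using hch
  let T : Finset OmegaStar → Set (Set OmegaStar) := fun e =>
    {G : Set OmegaStar | G ∈ 𝓕 ∧ (↑e : Set OmegaStar) ⊆ G}
  let R : Finset OmegaStar → OmegaStar → Prop := fun s p =>
    ∀ e : Finset OmegaStar, e ⊆ s → #(T e) ≤ κ → ∀ F ∈ 𝓕, (↑e : Set OmegaStar) ⊆ F → p ∉ F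
  have hstep : ∀ s : Finset OmegaStar, (↑s : Set OmegaStar) ⊆ Y → ∃ p ∈ Y, p ∉ s ∧ R s p := by
    intro s hs
    let S1 : Set (Set OmegaStar) :=
      ⋃ e : {e : Finset OmegaStar // e ∈ s.powerset ∧ #(T e) ≤ κ}, T e.1
    let S2 : Set (Set OmegaStar) := φ '' (↑s : Set OmegaStar)
    have h1 : #S1 ≤ κ := by
      refine (mk_iUnion_le_sum_mk).trans ?_
      refine (sum_le_sum _ (fun _ => κ) fun e => e.2.2).trans ?_
      rw [sum_const']
      refine mul_le_of_le hκ ?_ le_rfl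
      have hfin : Finite {e : Finset OmegaStar // e ∈ s.powerset ∧ #(T e) ≤ κ} :=
        Finite.of_injective (fun e => (⟨e.1, e.2.1⟩ : {e // e ∈ s.powerset}))
          (fun a b hab => Subtype.ext (congrArg (fun z => z.1) hab))
      exact (mk_le_aleph0_iff.mpr inferInstance).trans hκ
    have h2 : #S2 ≤ κ := by
      refine mk_image_le.trans ?_
      exact (mk_le_aleph0_iff.mpr (Finset.countable_toSet s).to_subtype).trans hκ
    obtain ⟨y, hy, hyS⟩ := hY (S1 ∪ S2) (by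
      rintro F (hF | ⟨z, hz, rfl⟩)
      · obtain ⟨e, he⟩ := mem_iUnion.mp hF
        exact he.1
      · exact (hφ z (hYA (hs hz))).1) ((mk_union_le _ _).trans (add_le_of_le hκ h1 h2))
    refine ⟨y, hy, fun hys => ?_, fun e he hek F hF heF hyF => ?_⟩
    · exact hyS _ (Or.inr ⟨y, hys, rfl⟩) (hφ y (hYA hy)).2
    · exact hyS F (Or.inl (mem_iUnion.mpr ⟨⟨e, Finset.mem_powerset.mpr he, hek⟩, hF, heF⟩)) hyF
  obtain ⟨d, s, h1, h2, h3⟩ := recur Y R hstep
  have hinj := inj_of d s (fun n => (h1 n).2.1) h2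
  obtain ⟨x, hxA, hx⟩ := hW.isCompact.exists_mapClusterPt (f := atTop) (u := d)
    (by
      rw [le_principal_iff, mem_map]
      exact Eventually.of_forall fun n => hYA (h1 n).1)
  obtain ⟨F, hF, hxF⟩ := hcov hxA
  have hfr := freq (hP F hF) d x hx hxF
  refine ⟨F, hF, d '' {n | d n ∈ F}, ?_, ?_, fun e he => ?_⟩
  · rintro _ ⟨n, hn, rfl⟩
    exact ⟨hn, (h1 n).1⟩
  · exact (Nat.frequently_atTop_iff_infinite.mp hfr).image hinj.injOn
  · by_contra hcon
    have hsm : #(T e) ≤ κ := not_lt.mp hcon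
    have hN : ∃ N, e ⊆ s N := by
      clear hcon hsm
      induction e using Finset.induction_on with
      | empty => exact ⟨0, Finset.empty_subset _⟩
      | insert a e _ ih =>
        obtain ⟨N, hN⟩ := ih ((Finset.coe_subset.mpr (Finset.subset_insert a e)).trans he)
        obtain ⟨m, -, hm⟩ := he (Finset.mem_coe.mpr (Finset.mem_insert_self a e))
        refine ⟨max N (m + 1), Finset.insert_subset ?_ (hN.trans (h3 _ _ (le_max_left _ _)))⟩
        rw [← hm]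
        exact h2 m _ (lt_of_lt_of_le (Nat.lt_succ_self m) (le_max_right _ _))
    obtain ⟨N, hN⟩ := hN
    obtain ⟨n, hn, hNn⟩ := (hfr.and_eventually (eventually_ge_atTop N)).exists
    refine (h1 n).2.2 e (hN.trans (h3 N n hNn)) hsm F hF (fun y hy => ?_) hn
    obtain ⟨k, hk, rfl⟩ := he hy
    exact hk

/-- `ℵ₂ < c` iff `ℵ₃ ≤ c` -/
theorem aleph3_le {c : Cardinal.{0}} (h : aleph 2 < c) : aleph 3 ≤ c := by
  have h2 : aleph 3 = Order.succ (aleph 2) := by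
    rw [succ_aleph]
    norm_num
  rw [h2]
  exact Order.succ_le_of_lt h

theorem aleph0_le_aleph2 : ℵ₀ ≤ aleph 2 := aleph0_le_aleph 2

/-- Infinite sets in `ℵ₃` members if the continuum is `ℵ₂`. -/
theorem part2 (hc : continuum.{0} ≤ aleph 2) (𝓕 : Set (Set OmegaStar))
    (hP : ∀ F ∈ 𝓕, IsPSet F) (W : Set OmegaStar) (hW : IsClosed W) (hcovA : W ⊆ ⋃₀ 𝓕)
    (T : Set OmegaStar) (hT : T ⊆ W)
    (hTS : ∀ S : Set (Set OmegaStar), S ⊆ 𝓕 → #S ≤ aleph 2 → ∃ y ∈ T, ∀ F ∈ S, y ∉ F) :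
    ∃ E : Set OmegaStar, E ⊆ T ∧ E.Infinite ∧
      aleph 3 ≤ #(↥{G : Set OmegaStar | G ∈ 𝓕 ∧ E ⊆ G}) := by
  classical
  have hch : ∀ y : OmegaStar, ∃ F : Set OmegaStar, y ∈ W → F ∈ 𝓕 ∧ y ∈ F := by
    intro y
    by_cases hy : y ∈ W
    · obtain ⟨F, hF, hyF⟩ := hcovA hy
      exact ⟨F, fun _ => ⟨hF, hyF⟩⟩
    · exact ⟨∅, fun h => absurd h hy⟩
  choose φ hφ using hch
  let Y : Set OmegaStar := {x | x ∈ W ∧ ∃ d : ℕ → OmegaStar, Function.Injective d ∧
    (∀ n, d n ∈ T) ∧ MapClusterPt x atTop d}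
  have hY : ∀ S : Set (Set OmegaStar), S ⊆ 𝓕 → #S ≤ aleph 2 → ∃ y ∈ Y, ∀ F ∈ S, y ∉ F := by
    intro S hS hSc
    have hstep : ∀ s : Finset OmegaStar, (↑s : Set OmegaStar) ⊆ T → ∃ p ∈ T, p ∉ s ∧
        ∀ F ∈ S, p ∉ F := by
      intro s hs
      let S2 : Set (Set OmegaStar) := φ '' (↑s : Set OmegaStar)
      have h2 : #S2 ≤ aleph 2 := by
        refine mk_image_le.trans ?_
        exact (mk_le_aleph0_iff.mpr (Finset.countable_toSet s).to_subtype).trans aleph0_le_aleph2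
      obtain ⟨y, hy, hyS⟩ := hTS (S ∪ S2) (by
          rintro F (hF | ⟨z, hz, rfl⟩)
          · exact hS hF
          · exact (hφ z (hT (hs hz))).1)
        ((mk_union_le _ _).trans (add_le_of_le aleph0_le_aleph2 hSc h2))
      exact ⟨y, hy, fun hys => hyS _ (Or.inr ⟨y, hys, rfl⟩) (hφ y (hT hy)).2,
        fun F hF => hyS F (Or.inl hF)⟩
    obtain ⟨d, s, h1, h2, -⟩ := recur T (fun _ p => ∀ F ∈ S, p ∉ F) hstep
    obtain ⟨x, hxA, hx⟩ := hW.isCompact.exists_mapClusterPt (f := atTop) (u := d)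
      (by
        rw [le_principal_iff, mem_map]
        exact Eventually.of_forall fun n => hT (h1 n).1)
    refine ⟨x, ⟨hxA, d, inj_of d s (fun n => (h1 n).2.1) h2, fun n => (h1 n).1, hx⟩, ?_⟩
    intro F hF hxF
    obtain ⟨n, hn'⟩ := (freq (hP F (hS hF)) d x hx hxF).exists
    exact (h1 n).2.2 F hF hn'
  obtain ⟨F, hF, E, hE, hEi, he⟩ := core 𝓕 hP W hW hcovA Y (fun y hy => hy.1) (aleph 2)
    aleph0_le_aleph2 hY
  obtain ⟨x, hxE⟩ := hEi.nonempty
  obtain ⟨hxA, d, hd, hdA, hx⟩ := (hE hxE).2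
  have hbig : aleph 2 < #(↥{G : Set OmegaStar | G ∈ 𝓕 ∧ x ∈ G}) := by
    have := he {x} (by simpa using hxE)
    simpa using this
  let TB : Set ℕ → Set (Set OmegaStar) := fun B =>
    {G : Set OmegaStar | (G ∈ 𝓕 ∧ x ∈ G) ∧ {n | d n ∈ G} = B}
  have hex : ∃ B : Set ℕ, aleph 2 < #(TB B) := by
    by_contra hcon
    push Not at hcon
    have hsub : {G : Set OmegaStar | G ∈ 𝓕 ∧ x ∈ G} ⊆ ⋃ B : Set ℕ, TB B := fun G hG =>
      mem_iUnion.mpr ⟨{n | d n ∈ G}, hG, rfl⟩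
    have h1 : #(↥{G : Set OmegaStar | G ∈ 𝓕 ∧ x ∈ G}) ≤ aleph 2 := by
      refine (mk_le_mk_of_subset hsub).trans ((mk_iUnion_le_sum_mk).trans ?_)
      refine (sum_le_sum _ (fun _ => aleph 2) hcon).trans ?_
      rw [sum_const']
      refine mul_le_of_le aleph0_le_aleph2 ?_ le_rfl
      rw [mk_set, mk_nat, two_power_aleph0]
      exact hc
    exact absurd hbig (not_lt.mpr h1)
  obtain ⟨B, hB⟩ := hex
  have hBi : B.Infinite := by
    have hne : Nonempty (TB B) := by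
      rw [← mk_ne_zero_iff]
      exact ((aleph_pos 2).trans hB).ne'
    obtain ⟨G, hG1, hG2⟩ := hne
    rw [← hG2]
    exact Nat.frequently_atTop_iff_infinite.mp (freq (hP G hG1.1) d x hx hG1.2)
  refine ⟨d '' B, ?_, hBi.image hd.injOn, ?_⟩
  · rintro _ ⟨n, -, rfl⟩
    exact hdA n
  · refine (aleph3_le hB).trans (mk_le_mk_of_subset ?_)
    rintro G ⟨hG1, hG2⟩
    refine ⟨hG1.1, ?_⟩
    rintro _ ⟨n, hn', rfl⟩
    rw [← hG2] at hn'
    exact hn'

/-- The dichotomy. -/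
theorem order (h : PFA) (𝓕 : Set (Set OmegaStar)) (hP : ∀ F ∈ 𝓕, IsPSet F)
    (hn : ∀ F ∈ 𝓕, IsNowhereDense F) (W : Set OmegaStar) (hW : IsClosed W)
    (hcov : W ⊆ ⋃₀ 𝓕) (T : Set OmegaStar) (hT : T ⊆ W) :
    (interior T = ∅ ∧ ∃ S : Set (Set OmegaStar), S ⊆ 𝓕 ∧ #S ≤ aleph 2 ∧ T ⊆ ⋃₀ S) ∨
    ∃ E : Set OmegaStar, E ⊆ T ∧ E.Infinite ∧ (∃ F ∈ 𝓕, E ⊆ F) ∧
      (∀ e : Finset OmegaStar, (↑e : Set OmegaStar) ⊆ E →
        aleph 3 ≤ #(↥{G : Set OmegaStar | G ∈ 𝓕 ∧ (↑e : Set OmegaStar) ⊆ G})) ∧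
      (continuum.{0} ≤ aleph 2 → aleph 3 ≤ #(↥{G : Set OmegaStar | G ∈ 𝓕 ∧ E ⊆ G})) := by
  by_cases hS : ∃ S : Set (Set OmegaStar), S ⊆ 𝓕 ∧ #S ≤ aleph 2 ∧ T ⊆ ⋃₀ S
  · refine Or.inl ⟨?_, hS⟩
    obtain ⟨S, hS1, hS2, hS3⟩ := hS
    rw [eq_empty_iff_forall_notMem]
    intro x hx
    obtain ⟨B, hB, hBT⟩ := exists_st isOpen_interior hx
    obtain ⟨y, hy, hyS⟩ := novak h S hS2 (fun F hF => hn F (hS1 hF)) B (infinite_of_mem x hB)
    obtain ⟨F, hF, hyF⟩ := hS3 (interior_subset (hBT hy))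
    exact hyS F hF hyF
  · refine Or.inr ?_
    have hTS : ∀ S : Set (Set OmegaStar), S ⊆ 𝓕 → #S ≤ aleph 2 → ∃ y ∈ T, ∀ F ∈ S, y ∉ F := by
      intro S hS1 hS2
      by_contra hcon
      push Not at hcon
      refine hS ⟨S, hS1, hS2, fun y hy => ?_⟩
      obtain ⟨F, hF, hyF⟩ := hcon y hy
      exact ⟨F, hF, hyF⟩
    by_cases hc : continuum.{0} ≤ aleph 2
    · obtain ⟨E, hET, hE, hEc⟩ := part2 hc 𝓕 hP W hW hcov T hT hTS
      refine ⟨E, hET, hE, ?_, fun e he => hEc.trans (mk_le_mk_of_subset ?_), fun _ => hEc⟩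
      · have hne' : Nonempty (↥{G : Set OmegaStar | G ∈ 𝓕 ∧ E ⊆ G}) := by
          rw [← mk_ne_zero_iff]
          exact ((aleph_pos 3).trans_le hEc).ne'
        obtain ⟨G, hG⟩ := hne'
        exact ⟨G, hG.1, hG.2⟩
      · exact fun G hG => ⟨hG.1, he.trans hG.2⟩
    · obtain ⟨F, hF, E, hE, hEi, he⟩ := core 𝓕 hP W hW hcov T hT (aleph 2) aleph0_le_aleph2 hTS
      exact ⟨E, fun x hx => (hE hx).2, hEi, ⟨F, hF, fun x hx => (hE hx).1⟩,
        fun e hee => aleph3_le (he e hee), fun h2 => absurd h2 hc⟩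

end Pool.Agent.Helper46_PSO
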